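import Mathlib
import Pool.Agent.Lib.MP_df1441_gt.Z.Space3
import Pool.Agent.Lib.MP_df1441_gt.Z.Force

/-!
# It is consistent that a first countable subnormal metacompact space is not subparacompact

Statements on the extension by a poset `P` are given by the predicate on `P` which says which
conditions force them (`fAnd`, `fImp`, `fNot`, `fAll`, `fEx` are the clauses of the forcing relation,
`SetName` is the type of names of subsets of ground model sets); the forced statement of part (1)
is `fHyp`.  The space was found by helper49, the one-step forcing by helper57 and helper10.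
-/

open Pool.Agent.Lib.MP_df1441_gt

namespace Pool.Agent.Results.MP_df1441_gt.ConsistentCounterexample

/-- (1) There are a linearly ordered set `Ω` with countable initial segments, a set `κ` and a poset
`P` such that each condition of `P` forces: the reals can be enumerated by `Ω`, and there is a
function `D : κ × κ → Ω` which separates each subset of `κ` from its complement but does not
separate `κ`.  (2) If these statements are true for some `Ω`, `κ`, then there is a first countable
regular Hausdorff space which is subnormal and metacompact but not subparacompact. -/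
theorem result :
    (∃ (Ω : Type) (_ : LinearOrder Ω) (κ : Type) (P : Type) (_ : Preorder P), Nonempty P ∧
      (∀ a : Ω, (Set.Iio a).Countable) ∧ ∀ p : P, fHyp P κ Ω p) ∧
    ∀ (Ω : Type) [LinearOrder Ω] (κ : Type), (∀ a : Ω, (Set.Iio a).Countable) →
      (∃ E : Set (Ω × ℕ), ∀ x : Set ℕ, ∃ ξ : Ω, ∀ n : ℕ, n ∈ x ↔ (ξ, n) ∈ E) →
      (∃ D : κ × κ → Ω,
        (∀ B : Set κ, ∃ f : κ → Ω, ∀ x ∈ B, ∀ y ∉ B, D (x, y) < max (f x) (f y)) ∧
        ¬ ∃ f : κ → Ω, ∀ x y, x ≠ y → D (x, y) ≤ max (f x) (f y)) →
      ∃ (X : Type) (_ : TopologicalSpace X), T3Space X ∧ FirstCountableTopology X ∧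
        Subnormal X ∧ Metacompact X ∧ Submetacompact X ∧ ¬ Subparacompact X := by
  refine ⟨exists_forcing, ?_⟩
  rintro Ω _ κ hc hE ⟨D, hQ, hQ'⟩
  obtain ⟨X, _, h1, h2, h3, h4, h5⟩ := exists_space hc hE D hQ hQ'
  exact ⟨X, _, h1, h2, h3, h4, h4.submetacompact, h5⟩

end Pool.Agent.Results.MP_df1441_gt.ConsistentCounterexample
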